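import Pool.Agent.TH183.QC.Fin

/-! General collisions: all degrees but at most one, for all `m`. -/

namespace Pool.Agent.TH183.QC

open Finset Pool.Agent.TH176.Nag Pool.Agent.TH183.QI Pool.Agent.H932R2 Pool.Agent.H932R3
open Pool.Agent.TH183.QN (EmpW TT)

universe u

section base
variable {ι : Type} [Fintype ι] (tw : ι → ℕ) {n : ℕ}

/-- the emptiness in the last step -/
theorem es_base (hn : n = ∑ i, tw i) (m : ℕ) :
    EmpA (esW (tw := fun i => (tw i : ℝ)) (c := fun i => (tw i * m : ℝ)) fun _ => Nat.cast_nonneg _)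
      (Cl ((n * m : ℕ) : ℝ) (n : ℝ)) := by
  have h : EmpW (fun i => (tw i : ℝ)) (fun i => (tw i * m : ℝ)) (Reg 0 (n * m - 1) 0 n) := by
    apply EmpW.final (fun i => Nat.cast_nonneg _)
    · rw [hn]; push_cast; rfl
    · rw [← sum_mul, hn]
      push_cast
      linarith
  refine QN.EmpW.mono h ?_
  rintro ⟨a, b⟩ ⟨h1, h2, h3⟩
  simp only at h1 h2 h3
  push_cast at h3
  have h1' : (0 : ℝ) ≤ a := by exact_mod_cast h1
  refine ⟨h2, ?_, ?_⟩
  · simp only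
    linarith
  · simp only
    linarith

/-- the independence in the last step -/
theorem ss_base (hn : n = ∑ i, tw i) (m : ℕ) :
    SurA (ssI (C := cnd n m) (EmpF.sys (tw := fun i => (tw i : ℝ)) (c := fun i => (tw i * m : ℝ))
      fun _ => Nat.cast_nonneg _)) (Op ((n * m : ℕ) : ℝ) (n : ℝ)) := by
  classical
  have hsys := EmpF.sys (tw := fun i => (tw i : ℝ)) (c := fun i => (tw i * m : ℝ)) (fun i => Nat.cast_nonneg _)
  let G : Finset (ℤ × ℤ) := (EE n m).image fun p => ((p.1 : ℤ), (p.2 : ℤ))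
  have hG : ∀ q ∈ G, ∃ i l : ℕ, l < m ∧ i < n * (m - l) ∧ q = ((i : ℤ), (l : ℤ)) := by
    intro q hq
    simp only [G, mem_image] at hq
    obtain ⟨⟨i, l⟩, h1, rfl⟩ := hq
    rw [mem_EE] at h1
    exact ⟨i, l, h1.1, h1.2, rfl⟩
  have hcard : G.card = cnd n m := by
    rw [card_image_of_injective, card_EE_eq']
    · rfl
    · rintro ⟨i, l⟩ ⟨i', l'⟩ h
      simp only [Prod.mk.injEq, Nat.cast_inj] at h
      ext
      · exact h.1
      · exact h.2
  refine ⟨(↑G : Set (ℤ × ℤ)), ?_, G.finite_toSet, by rw [Set.ncard_coe_finset, hcard], ?_⟩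
  · intro q hq
    obtain ⟨i, l, hl, hi, rfl⟩ := hG q (mem_coe.1 hq)
    refine ⟨by simp, by simp, ?_⟩
    simp only
    push_cast
    have h1 : ((i : ℝ)) < n * (m - l) := by
      have : ((i : ℕ) : ℝ) < ((n * (m - l) : ℕ) : ℝ) := by exact_mod_cast hi
      push_cast [Nat.cast_sub hl.le] at this
      exact this
    linarith
  · rw [Set.ncard_coe_finset, hcard, Nat.sub_self]
    have h := es_base tw hn m
    refine (EmpF.of_empW h).mono ?_
    intro q hq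
    obtain ⟨i, l, hl, hi, rfl⟩ := hG q (mem_coe.1 hq)
    refine ⟨by simp, by simp, ?_⟩
    simp only
    push_cast
    have h1 : i + 1 ≤ n * (m - l) := hi
    have h2 : ((i : ℝ) + 1) ≤ n * (m - l) := by
      have : (((i + 1 : ℕ)) : ℝ) ≤ ((n * (m - l) : ℕ) : ℝ) := by exact_mod_cast h1
      push_cast [Nat.cast_sub hl.le] at this
      exact this
    linarith

end base

/-- **Emptiness and independence in the plane** for the quasimonomial valuations of integral weights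
of sum `D t ^ 2` -/
theorem both {D : ℕ} (hD : 1 ≤ D) {ε : ℝ} (hε : 0 < ε) : ∃ t0 : ℕ, 1 ≤ t0 ∧ ∀ t : ℕ, t0 ≤ t →
    ∀ n : ℕ, n = D * t ^ 2 → ∀ (ι : Type) [Fintype ι] (tw : ι → ℕ), n = ∑ i, tw i → ∀ m : ℕ, 1 ≤ m → ∀ d : ℕ,
    ((n : ℝ) / 2 + 2 ≤ m → (d : ℝ) + 3 / 2 + ε ≤ (m + 1 / 2) * √(n : ℝ) →
      EmpW (fun i => (tw i : ℝ)) (fun i => (tw i * m : ℝ)) (TT d)) ∧
    ((m + 1 / 2) * √(n : ℝ) + ε ≤ d + 3 / 2 → n * (m + 1).choose 2 ≤ (d + 2).choose 2 ∧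
      EmpF ((d + 2).choose 2 - n * (m + 1).choose 2) (fun i => (tw i : ℝ)) (fun i => (tw i * m : ℝ))
        (TT d)) := by
  obtain ⟨t1, ht1, h1⟩ := EmpA_cut hD hε
  obtain ⟨t2, ht2, h2⟩ := SurA_cut hD hε
  refine ⟨max t1 t2, ht1.trans (le_max_left _ _), ?_⟩
  rintro t ht n rfl ι _ tw hn m hm d
  obtain ⟨n, hn'⟩ : ∃ n : ℕ, n = D * t ^ 2 := ⟨_, rfl⟩
  have h1' := h1 t ((le_max_left _ _).trans ht)
  have h2' := h2 t ((le_max_right _ _).trans ht)
  rw [← hn'] at h1' h2' hn ⊢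
  have hn0 : 0 < n := by
    have : 0 < t := by
      have := (le_max_left t1 t2).trans ht
      omega
    rw [hn']; positivity
  have hnR : (0 : ℝ) < n := by exact_mod_cast hn0
  have hs : 0 < √(n : ℝ) := Real.sqrt_pos.2 hnR
  have hss : √(n : ℝ) * √(n : ℝ) = n := Real.mul_self_sqrt hnR.le
  have e : (((n * m : ℕ) : ℝ) + (n : ℝ) / 2) / √(n : ℝ) = (m + 1 / 2) * √(n : ℝ) := by
    rw [div_eq_iff hs.ne', mul_assoc, hss]
    push_cast
    ring
  constructor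
  · intro k1 k2
    refine h1' _ (n * m) (es_base tw hn m) d ?_ ?_
    · push_cast
      exact mul_le_mul_of_nonneg_left k1 hnR.le
    · rw [e]; exact k2
  · intro k2
    obtain ⟨T, hT, hI⟩ := h2' _ (n * m) (ss_base tw hn m) d (by rw [e]; exact k2)
    obtain ⟨hf, hc⟩ := TT_ncard d
    have h3 := hI.mono (EmpF.sys fun i => Nat.cast_nonneg _) hT hf
    obtain ⟨-, h4, h5⟩ := h3
    rw [hc] at h4 h5
    exact ⟨h4, h5⟩

/-- **General collisions: all degrees but at most one.** -/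
theorem coll_sharp {D : ℕ} (hD : 1 ≤ D) {ε : ℝ} (hε : 0 < ε) : ∃ t0 : ℕ, 1 ≤ t0 ∧ ∀ t : ℕ, t0 ≤ t →
    ∀ r : ℕ, r = D * t ^ 2 → ∀ (m : ℕ) (L : Type u) [Field L] [CharZero L],
    ∃ F : MvPolynomial (Fin (r + 1)) L, F ≠ 0 ∧
      ∀ (c : L) (a : Fin r → L), MvPolynomial.eval (Fin.cons c a : Fin (r + 1) → L) F ≠ 0 →
        ∀ d : ℕ, ε ≤ |2 * (d : ℝ) + 3 - √(r : ℝ) - 2 * (√(r : ℝ) * m)| → JetDim r m c a d := by
  classical
  obtain ⟨t1, ht1, h⟩ := both hD (half_pos hε)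
  refine ⟨max t1 12, ht1.trans (le_max_left _ _), ?_⟩
  intro t ht r hr m L _ _
  have h' := h t ((le_max_left _ _).trans ht) r hr
  have ht2 : 12 ≤ t := (le_max_right _ _).trans ht
  have htn : t ^ 2 ≤ r := by
    rw [hr]
    have : 1 * t ^ 2 ≤ D * t ^ 2 := Nat.mul_le_mul_right _ hD
    omega
  have h144 : 144 ≤ r := by
    have : 12 ^ 2 ≤ t ^ 2 := Nat.pow_le_pow_left ht2 2
    omega
  have hrR : (144 : ℝ) ≤ r := by exact_mod_cast h144
  have hs12 : (12 : ℝ) ≤ √(r : ℝ) := by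
    apply Real.le_sqrt_of_sq_le
    norm_num
    exact_mod_cast h144
  have hs0 : 0 < √(r : ℝ) := by linarith
  have hss : √(r : ℝ) * √(r : ℝ) = r := Real.mul_self_sqrt (by linarith)
  have hr0 : 0 < r := by omega
  rcases Nat.eq_zero_or_pos m with hm | hm
  · subst hm
    refine ⟨1, one_ne_zero, fun c a _ d _ => ?_⟩
    refine jet_indep (f := 0) ?_ d (Nat.zero_le d)
    have : r * (0 + 1).choose 2 = 0 := by simp
    rw [this]
    exact ⟨fun i => i.elim0, fun i => i.elim0, fun c _ i => i.elim0⟩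
  rcases lt_or_ge (m : ℝ) ((r : ℝ) / 2 + 2) with hsm | hlg
  · -- small multiplicities
    obtain ⟨F, hF, hF'⟩ := collision_main (K := L) (r := r) (m := m) (by omega) hm
      (cond_of_le (by omega) (by nlinarith)) (fun k hk _ => by exact_mod_cast hk.ne')
    exact ⟨F, hF, fun c a hc d _ => hF' c a hc d⟩
  · have hu : (r : ℕ) = ∑ _i : Unit, r := by simp
    have hh := fun d => h' Unit (fun _ => r) hu m hm d
    -- the low degrees
    have hlow : ∃ F : MvPolynomial (Fin (r + 1)) L, F ≠ 0 ∧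
        ∀ (c : L) (a : Fin r → L), MvPolynomial.eval (Fin.cons c a : Fin (r + 1) → L) F ≠ 0 →
          ∀ d : ℕ, (d : ℝ) + 3 / 2 + ε / 2 ≤ (m + 1 / 2) * √(r : ℝ) → JetDim r m c a d := by
      by_cases hex : ∃ d : ℕ, (d : ℝ) + 3 / 2 + ε / 2 ≤ (m + 1 / 2) * √(r : ℝ)
      · obtain ⟨d0, hd0, hd1⟩ : ∃ d0 : ℕ, (d0 : ℝ) + 3 / 2 + ε / 2 ≤ (m + 1 / 2) * √(r : ℝ) ∧
            ∀ d : ℕ, (d : ℝ) + 3 / 2 + ε / 2 ≤ (m + 1 / 2) * √(r : ℝ) → d ≤ d0 := by
          obtain ⟨d, hd⟩ := hex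
          have hd' : (d : ℝ) ≤ (m + 1 / 2) * √(r : ℝ) - 3 / 2 - ε / 2 := by linarith
          have hpos : 0 ≤ (m + 1 / 2) * √(r : ℝ) - 3 / 2 - ε / 2 := (Nat.cast_nonneg d).trans hd'
          refine ⟨⌊(m + 1 / 2) * √(r : ℝ) - 3 / 2 - ε / 2⌋₊, ?_, fun d hd => ?_⟩
          · have := Nat.floor_le hpos
            linarith
          · exact Nat.le_floor (by linarith)
        obtain ⟨F, hF, hF'⟩ := coll_zero hr0 ((hh d0).1 hlg hd0) L
        exact ⟨F, hF, fun c a hc d hd => hF' c a hc d (hd1 d hd)⟩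
      · push Not at hex
        exact ⟨1, one_ne_zero, fun c a _ d hd => absurd hd (not_le.2 (hex d))⟩
    -- the high degrees
    have hhigh : ∃ F : MvPolynomial (Fin (r + 1)) L, F ≠ 0 ∧
        ∀ (c : L) (a : Fin r → L), MvPolynomial.eval (Fin.cons c a : Fin (r + 1) → L) F ≠ 0 →
          ∀ d : ℕ, (m + 1 / 2) * √(r : ℝ) + ε / 2 ≤ d + 3 / 2 → JetDim r m c a d := by
      obtain ⟨d0, hd0, hd1⟩ : ∃ d0 : ℕ, (m + 1 / 2) * √(r : ℝ) + ε / 2 ≤ d0 + 3 / 2 ∧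
          ∀ d : ℕ, (m + 1 / 2) * √(r : ℝ) + ε / 2 ≤ d + 3 / 2 → d0 ≤ d := by
        have hex : ∃ d : ℕ, (m + 1 / 2) * √(r : ℝ) + ε / 2 ≤ d + 3 / 2 := by
          obtain ⟨d, hd⟩ := exists_nat_gt ((m + 1 / 2) * √(r : ℝ) + ε / 2)
          exact ⟨d, by linarith⟩
        exact ⟨Nat.find hex, Nat.find_spec hex, fun d hd => Nat.find_min' hex hd⟩
      obtain ⟨h3, h4⟩ := (hh d0).2 hd0
      obtain ⟨F, hF, hF'⟩ := coll_ind hr0 (by omega) h4 L
      exact ⟨F, hF, fun c a hc d hd => hF' c a hc d (hd1 d hd)⟩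
    obtain ⟨F, hF, hF'⟩ := hlow
    obtain ⟨G, hG, hG'⟩ := hhigh
    refine ⟨F * G, mul_ne_zero hF hG, fun c a hc d hd => ?_⟩
    rw [map_mul] at hc
    rcases le_abs.1 hd with hd | hd
    · exact hG' c a (right_ne_zero_of_mul hc) d (by linarith)
    · exact hF' c a (left_ne_zero_of_mul hc) d (by linarith)

end Pool.Agent.TH183.QC
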