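import Pool.Agent.TH183.QC.Sys
import Pool.Agent.TH183.QI.Lim
import Pool.Agent.TH183.QI.Trans

/-! The conditions of quasimonomial valuations are such systems. -/

namespace Pool.Agent.TH183.QC

open Finset Pool.Agent.TH176.Nag Pool.Agent.TH603.Sur Pool.Agent.TH183.QN Pool.Agent.TH183.QI

section
variable {ι : Type} {tw c : ι → ℝ}

theorem EmpF.to_empW {S : Set (ℤ × ℤ)} (h : EmpF 0 tw c S) : EmpW tw c S := by
  obtain ⟨K, _, _, X, Y, θ, hX, hf⟩ := h
  exact ⟨K, inferInstance, inferInstance, X, Y, hX, fun f h1 h2 => hf f h1 h2 fun j => j.elim0⟩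

theorem empW_empty : EmpW tw c (∅ : Set (ℤ × ℤ)) := by
  refine ⟨ℚ, inferInstance, inferInstance, fun _ => ou ℚ 0, fun _ => ou ℚ 0, fun _ => ?_, fun f hf _ => ?_⟩
  · left
    rw [ld_ou_zero]
    exact one_ne_zero
  · rw [Set.subset_empty_iff, Finset.coe_eq_empty, Finsupp.support_eq_empty] at hf
    exact hf

/-- emptiness for quasimonomial valuations -/
def esW (htw : ∀ i, 0 ≤ tw i) : ES where
  E := EmpW tw c
  none := empW_empty
  mono h hS := h.mono hS
  comap h a b c' d u v hd hS := h.comap htw a b c' d u v hd hS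
  flat0 hS h := EmpW.flat0 htw hS h
  chart {N} hN t e h := by
    obtain ⟨f0, f1, f2, f3, u, v, hdet, hmap, hsur⟩ := Q3F_lat hN t e
    exact EmpF.to_empW (EmpF.chart htw hN t e
      (((EmpF.of_empW h).sub htw f0 f1 f2 f3 u v hdet).mono hsur))

end

section
variable {P : ℕ → Set (ℤ × ℤ) → Prop} {C : ℕ}

theorem Q3z_neg {N : ℕ} (hN : 3 ≤ N) (t : ℕ) {e : ℤ} (he : e < 0) (p : ℤ × ℤ) : p ∉ Q3z N t e := by
  rintro ⟨h1, h2, h3⟩
  have hN' : (3 : ℤ) ≤ N := by exact_mod_cast hN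
  have hg := gs_pos hN' t
  have hg' := gs_pos hN' (t + 1)
  have hgg := (gs_pos_mono hN' t).2
  have q1 : 0 ≤ (((N : ℤ) - 2) * p.1 + e) * gs N t ^ 2 := mul_nonneg (h1.trans h2) (sq_nonneg _)
  have q2 : 0 ≤ p.2 * (gs N (t + 1) ^ 2 - gs N t ^ 2) := by
    apply mul_nonneg h1
    nlinarith
  have q3 : e * (gs N t * gs N (t + 1)) < 0 := mul_neg_of_neg_of_pos he (mul_pos hg hg')
  linarith

/-- independence of `C` conditions -/
def ssI (hP : IndSys P) : SS where
  R S := ∃ T : Set (ℤ × ℤ), T ⊆ S ∧ Ind P C T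
  mono := by
    rintro S S' ⟨T, h1, h2⟩ hS
    exact ⟨T, h1.trans hS, h2⟩
  comap := by
    rintro S S' ⟨T, h1, h2⟩ a b c d u v hdet hS
    classical
    have hφ : Function.Injective (fun m : ℤ × ℤ => (a * m.1 + b * m.2 + u, c * m.1 + d * m.2 + v)) := by
      rintro ⟨p, q⟩ ⟨p', q'⟩ h
      simp only [Prod.mk.injEq] at h
      obtain ⟨h1, h2⟩ := h
      have e1 : (a * d - b * c) * (p - p') = 0 := by linear_combination d * h1 - b * h2
      have e2 : (a * d - b * c) * (q - q') = 0 := by linear_combination a * h2 - c * h1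
      have e3 := (mul_eq_zero.1 e1).resolve_left hdet
      have e4 := (mul_eq_zero.1 e2).resolve_left hdet
      ext <;> simp <;> omega
    obtain ⟨h3, h4, h5⟩ := h2
    have hc : ((fun m : ℤ × ℤ => (a * m.1 + b * m.2 + u, c * m.1 + d * m.2 + v)) ⁻¹' T).ncard = T.ncard := by
      apply Set.ncard_preimage_of_injective_subset_range hφ
      intro m hm
      obtain ⟨m', -, hm'⟩ := hS m (h1 hm)
      exact ⟨m', hm'⟩
    refine ⟨(fun m : ℤ × ℤ => (a * m.1 + b * m.2 + u, c * m.1 + d * m.2 + v)) ⁻¹' T, ?_, ?_, ?_, ?_⟩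
    · intro m hm
      obtain ⟨m', hm1, hm2⟩ := hS _ (h1 hm)
      rwa [← hφ hm2]
    · exact h3.preimage hφ.injOn
    · rw [hc]; exact h4
    · rw [hc]
      exact hP.comap h5 a b c d u v hdet fun m hm => hm
  flat0 := by
    rintro S S' hS ⟨T, h1, h2⟩
    classical
    choose! B hB using fun p (hp : p ∈ S') => (hS p hp).2
    refine ⟨⋃ p ∈ T, (fun b : ℤ => ((p.1, b) : ℤ × ℤ)) '' (↑(B p) : Set ℤ), ?_, ?_⟩
    · intro m hm
      simp only [Set.mem_iUnion, Set.mem_image] at hm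
      obtain ⟨p, hp, b, hb, rfl⟩ := hm
      exact (hB p (h1 hp)).2 b (mem_coe.1 hb)
    · refine Ind.flat0 hP ?_ h2 ?_
      · exact h2.1.biUnion fun p _ => (B p).finite_toSet.image _
      · intro p hp
        refine ⟨(hS p (h1 hp)).1, B p, ?_, (hB p (h1 hp)).1⟩
        intro b hb
        simp only [Set.mem_iUnion, Set.mem_image]
        exact ⟨p, hp, b, mem_coe.2 hb, rfl⟩
  chart := by
    rintro N hN t e ⟨T, h1, h2⟩
    rcases lt_or_ge e 0 with he | he
    · refine ⟨T, fun p hp => (Q3z_neg hN _ he p (h1 hp)).elim, h2⟩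
    · obtain ⟨e, rfl⟩ := Int.eq_ofNat_of_zero_le he
      have h3 : Ind P C (QI.Q3F N (t + 2) (e : ℤ)) := h2.mono hP h1 (Q3z_card hN t _).1
      exact ⟨_, subset_rfl, Ind.Q3F hP hN t e h3⟩

end

end Pool.Agent.TH183.QC
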