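import Pool.Agent.TH183.QC.Class
import Pool.Agent.TH183.QC.Inst
import Pool.Agent.TH183.QI.Two

/-! Emptiness and independence in the plane, with a loss in the degree as small as we please. -/

namespace Pool.Agent.TH183.QC

open Finset Pool.Agent.TH176.Nag Pool.Agent.TH603.Sur Pool.Agent.TH181.NagM
open Pool.Agent.TH183.QN (TT)

theorem sz_one (A : ℝ) : sz ((1 : ℕ) : ℝ) A = A + 1 / 2 := by
  unfold sz
  rw [Nat.cast_one, Real.sqrt_one, div_one]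

/-- independence of the conditions in degree `d` -/
theorem SurA_cut {D : ℕ} (hD : 1 ≤ D) {ε : ℝ} (hε : 0 < ε) : ∃ t0 : ℕ, 1 ≤ t0 ∧ ∀ t : ℕ, t0 ≤ t →
    ∀ (w : SS) (W : ℕ), SurA w (Op (W : ℝ) ((D * t ^ 2 : ℕ) : ℝ)) → ∀ d : ℕ,
    ((W : ℝ) + ((D * t ^ 2 : ℕ) : ℝ) / 2) / √((D * t ^ 2 : ℕ) : ℝ) + ε ≤ d + 3 / 2 →
    SurA w (TT d) := by
  obtain ⟨t0, ht0, h⟩ := hyp hD ε hε
  refine ⟨t0, ht0, fun t ht w W h0 d hlt => ?_⟩
  obtain ⟨n, hn⟩ : ∃ n : ℕ, n = D * t ^ 2 := ⟨_, rfl⟩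
  have hS := (h t ht).1
  rw [← hn] at hS hlt h0
  have h1 := hS w ((d : ℤ) + 1) (W : ℤ) (by
    rw [sz_one]
    unfold sz
    push_cast at hlt ⊢
    linarith) (by
    rw [Int.cast_natCast]
    exact h0)
  refine h1.mono ?_
  rintro ⟨p, q⟩ ⟨hp, hq, hpq⟩
  simp only [Nat.cast_one, one_mul] at hp hq hpq
  refine ⟨hp, hq, ?_⟩
  have h2 : p + q < (d : ℤ) + 1 := by
    have : ((p + q : ℤ) : ℝ) < (((d : ℤ) + 1 : ℤ) : ℝ) := by push_cast; push_cast at hpq; exact hpq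
    exact_mod_cast this
  simp only
  omega

/-- the condition on the top row in the last stage -/
theorem top_last {n s x A A' κ j δ : ℝ} (hn : 0 < n) (hs : 0 < s) (_hx : 0 < x) (hsn : s * n = x ^ 2)
    (hκ : A - x * j + s / 2 = x * κ) (hκ0 : 0 ≤ κ) (hκ2 : κ ≤ 3 / 2)
    (h1 : n * (j + κ) ≤ A' + n / 2) (h2 : A' + n / 2 - 2 * δ * √n < n * (j + κ)) (hδ : 2 * δ ≤ √n)
    (hA : n * (n / 2 + 2) ≤ A') :
    (A - x * j + s / 2) ^ 2 / (2 * s) + (n - 1) * j ≤ A' := by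
  have hr0 : 0 < √n := Real.sqrt_pos.2 hn
  have hr : √n * √n = n := Real.mul_self_sqrt hn.le
  have e : (A - x * j + s / 2) ^ 2 / (2 * s) = n * κ ^ 2 / 2 := by
    rw [hκ, mul_pow, ← hsn]
    field_simp
  have h3 : 2 * δ * √n ≤ n := by
    rw [← hr, hr]
    calc 2 * δ * √n ≤ √n * √n := mul_le_mul_of_nonneg_right hδ hr0.le
      _ = n := hr
  have hj : n / 2 ≤ j := by
    have h4 : n * (n / 2) ≤ n * j := by nlinarith
    exact le_of_mul_le_mul_left h4 hn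
  have h5 : (κ - 1) ^ 2 ≤ 1 := by nlinarith
  have h6 : n * (κ - 1) ^ 2 ≤ n * 1 := mul_le_mul_of_nonneg_left h5 hn.le
  rw [e]
  nlinarith

/-- emptiness in degree `d` -/
theorem EmpA_cut {D : ℕ} (hD : 1 ≤ D) {ε : ℝ} (hε : 0 < ε) : ∃ t0 : ℕ, 1 ≤ t0 ∧ ∀ t : ℕ, t0 ≤ t →
    ∀ (w : ES) (W : ℕ), EmpA w (Cl (W : ℝ) ((D * t ^ 2 : ℕ) : ℝ)) → ∀ d : ℕ,
    ((D * t ^ 2 : ℕ) : ℝ) * (((D * t ^ 2 : ℕ) : ℝ) / 2 + 2) ≤ (W : ℝ) →
    (d : ℝ) + 3 / 2 + ε ≤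
      ((W : ℝ) + ((D * t ^ 2 : ℕ) : ℝ) / 2) / √((D * t ^ 2 : ℕ) : ℝ) →
    EmpA w (TT d) := by
  obtain ⟨t1, ht1, h⟩ := hyp hD (ε / 4) (by positivity)
  obtain ⟨a, ha⟩ : ∃ a : ℕ, a = max t1 (⌈4 / ε⌉₊ + 1) := ⟨_, rfl⟩
  have ha1 : t1 ≤ a := ha ▸ le_max_left _ _
  have ha2 : ⌈4 / ε⌉₊ + 1 ≤ a := ha ▸ le_max_right _ _
  have haε : 4 / ε ≤ a := by
    have h2 := Nat.le_ceil (4 / ε)
    have h3 : (⌈4 / ε⌉₊ : ℝ) ≤ a := by exact_mod_cast (by omega : ⌈4 / ε⌉₊ ≤ a)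
    linarith
  rw [div_le_iff₀ hε] at haε
  have ha0 : 1 ≤ a := by omega
  obtain ⟨s, hs⟩ : ∃ s : ℕ, s = D * a ^ 2 := ⟨_, rfl⟩
  have hE := (h a ha1).2
  rw [← hs] at hE
  obtain ⟨A0, hE⟩ := hE
  have hs1 : 1 ≤ s := by
    rw [hs]; exact Nat.succ_le_of_lt (by positivity)
  have hsR : (0 : ℝ) < s := by exact_mod_cast hs1
  have hrs : (a : ℝ) ≤ √(s : ℝ) := by
    apply Real.le_sqrt_of_sq_le
    have h3 : a ^ 2 ≤ s := by
      rw [hs]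
      have : 1 * a ^ 2 ≤ D * a ^ 2 := Nat.mul_le_mul_right _ hD
      omega
    exact_mod_cast h3
  have haR : (0 : ℝ) < a := by exact_mod_cast ha0
  have hrs0 : 0 < √(s : ℝ) := by linarith
  have hb1 : 1 / √(s : ℝ) ≤ ε / 4 := by
    rw [div_le_div_iff₀ hrs0 (by norm_num)]
    have : ε * a ≤ ε * √(s : ℝ) := mul_le_mul_of_nonneg_left hrs hε.le
    linarith
  refine ⟨max (max a (⌈((s : ℝ) / 8 + 2) * 4 / ε⌉₊ + 2)) (⌈(A0.toNat : ℝ) + 3 / 2 + ε⌉₊ + 1),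
    by
      have := le_max_right (max a (⌈((s : ℝ) / 8 + 2) * 4 / ε⌉₊ + 2)) (⌈(A0.toNat : ℝ) + 3 / 2 + ε⌉₊ + 1)
      omega, fun t ht w W hE0 d hw hd => ?_⟩
  have hta : a ≤ t := ((le_max_left _ _).trans (le_max_left _ _)).trans ht
  have ht2 : ⌈((s : ℝ) / 8 + 2) * 4 / ε⌉₊ + 2 ≤ t := ((le_max_right _ _).trans (le_max_left _ _)).trans ht
  have ht3 : ⌈(A0.toNat : ℝ) + 3 / 2 + ε⌉₊ + 1 ≤ t := (le_max_right _ _).trans ht
  have ht2' : ((s : ℝ) / 8 + 2) * 4 / ε ≤ t := by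
    have h2 := Nat.le_ceil (((s : ℝ) / 8 + 2) * 4 / ε)
    have h3 : (⌈((s : ℝ) / 8 + 2) * 4 / ε⌉₊ : ℝ) ≤ t := by
      exact_mod_cast (by omega : ⌈((s : ℝ) / 8 + 2) * 4 / ε⌉₊ ≤ t)
    linarith
  rw [div_le_iff₀ hε] at ht2'
  have ht3' : (A0.toNat : ℝ) + 3 / 2 + ε ≤ t := by
    have h2 := Nat.le_ceil ((A0.toNat : ℝ) + 3 / 2 + ε)
    have h3 : (⌈(A0.toNat : ℝ) + 3 / 2 + ε⌉₊ : ℝ) ≤ t := by
      exact_mod_cast (by omega : ⌈(A0.toNat : ℝ) + 3 / 2 + ε⌉₊ ≤ t)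
    linarith
  obtain ⟨n, hn⟩ : ∃ n : ℕ, n = D * t ^ 2 := ⟨_, rfl⟩
  rw [← hn] at hE0 hw hd
  have ht0 : 2 ≤ t := by omega
  have htR : (2 : ℝ) ≤ t := by exact_mod_cast ht0
  have hn2 : 2 ≤ n := by
    rw [hn]
    have : 1 * 2 ^ 2 ≤ D * t ^ 2 := Nat.mul_le_mul hD (Nat.pow_le_pow_left ht0 2)
    omega
  have hnR : (2 : ℝ) ≤ n := by exact_mod_cast hn2
  have hrn : (t : ℝ) ≤ √(n : ℝ) := by
    apply Real.le_sqrt_of_sq_le
    have h3 : t ^ 2 ≤ n := by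
      rw [hn]
      have : 1 * t ^ 2 ≤ D * t ^ 2 := Nat.mul_le_mul_right _ hD
      omega
    exact_mod_cast h3
  have hrn0 : 0 < √(n : ℝ) := by linarith
  have hrr : √(n : ℝ) * √(n : ℝ) = n := Real.mul_self_sqrt (by linarith)
  obtain ⟨x, hx⟩ : ∃ x : ℕ, x = D * a * t := ⟨_, rfl⟩
  have hsx : s ≤ x := by
    rw [hs, hx]
    calc D * a ^ 2 = D * a * a := by ring
      _ ≤ D * a * t := Nat.mul_le_mul_left _ hta
  have hsn : s * n = x ^ 2 := by rw [hs, hn, hx]; ring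
  have hx0 : (0 : ℝ) < x := by exact_mod_cast (lt_of_lt_of_le hs1 hsx)
  have hsxR : (s : ℝ) ≤ x := by exact_mod_cast hsx
  have hsnR : (s : ℝ) * n = (x : ℝ) ^ 2 := by exact_mod_cast hsn
  have e1 : √(s : ℝ) * √(n : ℝ) = x := by
    rw [← Real.sqrt_mul hsR.le, hsnR, Real.sqrt_sq hx0.le]
  have hss : √(s : ℝ) * √(s : ℝ) = s := Real.mul_self_sqrt hsR.le
  -- the degree
  obtain ⟨d', hd'⟩ : ∃ d' : ℕ, d' = max d A0.toNat := ⟨_, rfl⟩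
  have hdd' : d ≤ d' := hd' ▸ le_max_left _ _
  have hA0d : A0 ≤ (d' : ℤ) + 1 := by
    have h2 : A0.toNat ≤ d' := hd' ▸ le_max_right _ _
    have h3 := Int.self_le_toNat A0
    omega
  have hd2 : (d' : ℝ) + 3 / 2 + ε ≤ sz n W := by
    unfold sz
    rcases max_choice d A0.toNat with h2 | h2
    · rw [hd', h2]; exact hd
    · rw [hd', h2, le_div_iff₀ hrn0]
      have h3 : ((A0.toNat : ℝ) + 3 / 2 + ε) * √(n : ℝ) ≤ t * √(n : ℝ) :=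
        mul_le_mul_of_nonneg_right ht3' hrn0.le
      have h4 : t * √(n : ℝ) ≤ n := by
        calc t * √(n : ℝ) ≤ √(n : ℝ) * √(n : ℝ) := mul_le_mul_of_nonneg_right hrn hrn0.le
          _ = n := hrr
      have h5 : (0 : ℝ) ≤ n * n := by positivity
      nlinarith
  -- the last stage
  obtain ⟨A, hA1, hA2⟩ := exists_sz_le hs1 (sz n W - ε / 4)
  have h1 : EmpA w (Cl A s) := by
    refine E_div hs1 hsx hsn hn2 (A' := (W : ℤ)) ?_ ?_ ?_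
    · have h2 : ((s : ℝ) / 8 + 2) / √(n : ℝ) ≤ ε / 4 := by
        rw [div_le_div_iff₀ hrn0 (by norm_num)]
        have : ε * t ≤ ε * √(n : ℝ) := mul_le_mul_of_nonneg_left hrn hε.le
        linarith
      have e2 : sz n ((W : ℤ) : ℝ) = sz n W := by rw [Int.cast_natCast]
      rw [e2]
      linarith
    · intro j hj1 hj2
      rw [Int.cast_natCast]
      obtain ⟨κ, hκ⟩ : ∃ κ : ℝ, κ = ((A : ℝ) - x * j + s / 2) / x := ⟨_, rfl⟩
      have hκ1 : (A : ℝ) - x * j + s / 2 = x * κ := by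
        rw [hκ, mul_div_cancel₀ _ hx0.ne']
      have hsz : sz s A * √(n : ℝ) = n * (j + κ) := by
        have h2 : (A : ℝ) + s / 2 = x * (j + κ) := by linarith
        unfold sz
        rw [h2, ← e1]
        have : √(s : ℝ) * √(n : ℝ) * (j + κ) / √(s : ℝ) * √(n : ℝ) =
            (√(n : ℝ) * √(n : ℝ)) * (j + κ) := by field_simp
        rw [this, hrr]
      have hszn : sz n W * √(n : ℝ) = W + n / 2 := by
        unfold sz
        rw [div_mul_cancel₀ _ hrn0.ne']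
      refine top_last (κ := κ) (δ := ε / 4) (by linarith) hsR hx0 hsnR hκ1 ?_ ?_ ?_ ?_ ?_ hw
      · rw [hκ]
        apply div_nonneg _ hx0.le
        linarith
      · rw [hκ, div_le_iff₀ hx0]
        linarith
      · rw [← hsz, ← hszn]
        apply mul_le_mul_of_nonneg_right _ hrn0.le
        linarith
      · rw [← hsz, ← hszn]
        have h3 : sz n W - ε / 4 - ε / 4 < sz s A := by linarith
        have h4 := mul_lt_mul_of_pos_right h3 hrn0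
        linarith
      · -- `ε / 2 ≤ √n`
        have h3 : 0 ≤ (A0.toNat : ℝ) := Nat.cast_nonneg _
        linarith
    · rw [Int.cast_natCast]
      exact hE0
  have h2 : EmpA w (Cl (((d' : ℤ) + 1 : ℤ) : ℝ) ((1 : ℕ) : ℝ)) := by
    refine hE w ((d' : ℤ) + 1) A hA0d ?_ h1
    rw [sz_one]
    push_cast
    linarith
  refine h2.mono ?_
  rintro ⟨p, q⟩ ⟨hp, hq, hpq⟩
  simp only at hp hq hpq
  refine ⟨hp, hq, ?_⟩
  simp only [Nat.cast_one, one_mul]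
  have h3 : p + q ≤ (d' : ℤ) := by omega
  have h4 : ((p + q : ℤ) : ℝ) ≤ ((d' : ℤ) : ℝ) := by exact_mod_cast h3
  push_cast at h4 ⊢
  linarith

end Pool.Agent.TH183.QC
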