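import Pool.Agent.TH183.QC.Trans
import Pool.Agent.TH603.Cut.Stage

/-! One stage: from `M` to a square multiple of `M + 4`. -/

namespace Pool.Agent.TH183.QC

open Finset Pool.Agent.TH176.Nag Pool.Agent.TH603.Sur Pool.Agent.TH181.NagM
open Pool.Agent.TH603.Cut (Dat Dat.fracs exists_dat)

theorem dat_trS {M : ℕ} (hM1 : 1 ≤ M) (X : Dat M) : TrS M X.nf (7 / √(M : ℝ)) := by
  obtain ⟨f1, f2, f3, f4, f5, f6, f7, f8⟩ := X.fracs
  obtain ⟨ω, ν, σ, ρ, r, nc, k, y, s, nf, a, hω, hω2, hν, hMv, hcop, hk, hcν, hσ0, hρ0,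
    hr0, hσd, hρd, hσ2, hρ2, hr2, hσρ, hrρ, hs, ha, hnfa, hnf, hq, hb1, hb2, hb3, hb4⟩ := X
  simp only at f1 f2 f3 f4 f5 f6 f7 f8
  intro w A A' h1 h2
  simp only at h1 h2
  rw [← hσd] at h1
  have hs0 : (0 : ℝ) < s := by linarith
  -- merge
  obtain ⟨Z1, hZ1⟩ : ∃ Z1 : ℝ, Z1 = (A' + (nf : ℝ) / 2) / s - nc / 2 := ⟨_, rfl⟩
  have e1 : s * (Z1 + nc / 2) = A' + (nf : ℝ) / 2 := by
    rw [hZ1, sub_add_cancel, mul_div_cancel₀ _ hs0.ne']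
  have h3 : SurA w (Op Z1 nc) := by
    refine merge_S f6 (s := s) hs ?_ (Z' := A') ?_ ?_
    · have : 1 * 2 ≤ (s : ℝ) * nc := mul_le_mul f5 f4 (by norm_num) hs0.le
      linarith
    · rw [e1, hnf]
    · rw [hnf]; exact h2
  obtain ⟨Z, hZ⟩ : ∃ Z : ℝ, Z = ((Z1 + nc / 2) * ν + ν ^ 2 / 8) / (ν * k + y) - ν / 2 := ⟨_, rfl⟩
  have hd0 : 0 < ν * k + y := by rw [← hrρ]; positivity
  have h4 : SurA w (Op Z ν) := by
    refine move_S hν hcop hk hcν (Z' := Z1) ?_ h3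
    rw [hZ, sub_add_cancel, mul_div_cancel₀ _ hd0.ne']
  refine shape_S hM1 hω hω2 hν hMv ?_ h4
  rw [← hσd, ← hρd]
  have e2 : (Z + ν / 2) / ρ = sz nf A' + ν / (8 * r) := by
    rw [hZ, sub_add_cancel, ← hrρ]
    unfold sz
    rw [hq, ← e1, ← hρ2]
    field_simp
  have e3 : (Z + ν + 1) / ρ = (Z + ν / 2) / ρ + ρ / 2 + 1 / ρ := by
    have e4 : (Z + ν + 1) / ρ = (Z + ν / 2) / ρ + (ν / ρ) / 2 + 1 / ρ := by ring
    rw [e4, f8]
  have e5 : (A + M + 1) / σ = sz M A + σ / 2 + 1 / σ := by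
    have e6 : (A + M + 1) / σ = (A + (M : ℝ) / 2) / σ + ((M : ℝ) / σ) / 2 + 1 / σ := by ring
    rw [e6, f7]
    unfold sz
    rw [← hσd]
  have e7 : 7 / σ = 7 * (1 / σ) := by ring
  rw [e3, e2, e5]
  linarith

theorem dat_trE {M : ℕ} (hM1 : 1 ≤ M) (X : Dat M) : TrE M X.nf (7 / √(M : ℝ)) := by
  obtain ⟨f1, f2, f3, f4, f5, f6, f7, f8⟩ := X.fracs
  obtain ⟨ω, ν, σ, ρ, r, nc, k, y, s, nf, a, hω, hω2, hν, hMv, hcop, hk, hcν, hσ0, hρ0,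
    hr0, hσd, hρd, hσ2, hρ2, hr2, hσρ, hrρ, hs, ha, hnfa, hnf, hq, hb1, hb2, hb3, hb4⟩ := X
  simp only at f1 f2 f3 f4 f5 f6 f7 f8
  simp only
  have hs0 : (0 : ℝ) < s := by linarith
  obtain ⟨T1, hT1⟩ : ∃ T1 : ℝ, T1 = (s * nc) * (((s * nc) + nc / 2) ^ 2 / (2 * nc) + nf / 2) := ⟨_, rfl⟩
  obtain ⟨T2, hT2⟩ : ∃ T2 : ℝ, T2 = (ν * k + y) * (((ν * k + y) + ν / 2) ^ 2 / (2 * ν) + nc / 2) := ⟨_, rfl⟩
  refine ⟨max 0 ⌈max (T1 + nc / 2) (T2 + ν / 2)⌉, fun w A A' h0 h1 h2 => ?_⟩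
  rw [← hσd] at h1
  have hA0 : (0 : ℝ) ≤ A := by exact_mod_cast (le_max_left _ _).trans h0
  have hA1 : max (T1 + nc / 2) (T2 + ν / 2) ≤ A := by
    have h3 := Int.le_ceil (max (T1 + nc / 2) (T2 + ν / 2))
    have h4 : (⌈max (T1 + nc / 2) (T2 + ν / 2)⌉ : ℝ) ≤ A := by exact_mod_cast (le_max_right _ _).trans h0
    linarith
  have hA2 : T1 + nc / 2 ≤ A := (le_max_left _ _).trans hA1
  have hA3 : T2 + ν / 2 ≤ A := (le_max_right _ _).trans hA1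
  obtain ⟨Z1, hZ1⟩ : ∃ Z1 : ℝ, Z1 = (A' - 2 + (nf : ℝ) / 2) / s - nc / 2 := ⟨_, rfl⟩
  have e1 : s * (Z1 + nc / 2) = A' - 2 + (nf : ℝ) / 2 := by
    rw [hZ1, sub_add_cancel, mul_div_cancel₀ _ hs0.ne']
  obtain ⟨Z, hZ⟩ : ∃ Z : ℝ, Z = ((Z1 - 2 + nc / 2) * ν - ν ^ 2 / 8) / (ν * k + y) - ν / 2 := ⟨_, rfl⟩
  have hd0 : 0 < ν * k + y := by rw [← hrρ]; positivity
  -- sizes
  have e2 : (Z1 + nc / 2) / r = sz nf A' - 2 / (s * r) := by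
    unfold sz
    rw [hq]
    have : (Z1 + nc / 2) / r = (s * (Z1 + nc / 2)) / (s * r) := by
      rw [mul_div_mul_left _ _ hs0.ne']
    rw [this, e1]
    ring
  have e3 : (Z + ν / 2) / ρ = (Z1 + nc / 2) / r - 2 / r - ν / (8 * r) := by
    rw [hZ, sub_add_cancel, ← hrρ]
    rw [← hρ2]
    field_simp
    ring
  have h2r : 2 / r ≤ 1 / σ / 6 := by
    rw [div_div, div_le_div_iff₀ hr0 (by positivity)]
    linarith
  have h2sr : 2 / (s * r) ≤ 2 / r := by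
    apply div_le_div_of_nonneg_left (by norm_num) hr0
    have := mul_le_mul_of_nonneg_right f5 hr0.le
    linarith
  have e7 : 7 / σ = 7 * (1 / σ) := by ring
  have hszA : A / σ ≤ sz M A := by
    unfold sz
    rw [← hσd]
    apply div_le_div_of_nonneg_right _ hσ0.le
    have : (0 : ℝ) ≤ M := Nat.cast_nonneg _
    linarith
  have b1 : A / σ ≤ (Z1 + nc / 2) / r := by rw [e2]; linarith
  have b2 : A / σ ≤ (Z + ν / 2) / ρ := by rw [e3, e2]; linarith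
  have hZ1l : T1 ≤ Z1 := by
    rw [div_le_div_iff₀ hσ0 hr0] at b1
    have h3 : A * σ ≤ A * r := mul_le_mul_of_nonneg_left (by linarith) hA0
    have h4 : A * σ ≤ (Z1 + nc / 2) * σ := h3.trans b1
    have h5 := le_of_mul_le_mul_right h4 hσ0
    linarith
  have hZl : T2 ≤ Z := by
    rw [div_le_div_iff₀ hσ0 hρ0] at b2
    have h3 : A * σ ≤ A * ρ := mul_le_mul_of_nonneg_left hσρ hA0
    have h4 : A * σ ≤ (Z + ν / 2) * σ := h3.trans b2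
    have h5 := le_of_mul_le_mul_right h4 hσ0
    linarith
  have hsnc : 1 * 2 ≤ (s : ℝ) * nc := mul_le_mul f5 f4 (by norm_num) hs0.le
  have hs2nc : 1 * 2 ≤ (s : ℝ) ^ 2 * nc := mul_le_mul (one_le_pow₀ f5) f4 (by norm_num) (by positivity)
  have h3 : EmpA w (Cl Z1 nc) := by
    refine merge_E f6 (s := s) hs (by linarith) (by linarith) (Z' := A') ?_ ?_ ?_
    · rw [e1, hnf]
    · refine top_of_large (n' := s ^ 2 * nc) f6 (by linarith) (by ring) (by linarith) ?_ ?_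
      · rw [hnf, mul_assoc, mul_comm nc, ← mul_assoc, e1]
      · rw [hnf, ← hT1]; exact hZ1l
    · rw [hnf]; exact h2
  have h4 : EmpA w (Cl Z ν) := by
    refine move_E hν hcop hk hcν f4 (Z' := Z1) ?_ ?_ h3
    · rw [hZ, sub_add_cancel, mul_div_cancel₀ _ hd0.ne']
      linarith
    · refine top_of_large (n' := nc) hν hd0 hcν (by linarith) ?_ ?_
      · rw [hZ, sub_add_cancel, mul_div_cancel₀ _ hd0.ne']
        have : 0 ≤ ν ^ 2 / 8 := by positivity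
        linarith
      · rw [← hT2]; exact hZl
  refine shape_E hM1 hω hω2 hν hMv ?_ h4
  rw [← hσd, ← hρd]
  have e4 : (Z - 1) / ρ = (Z + ν / 2) / ρ - ρ / 2 - 1 / ρ := by
    have e4 : (Z - 1) / ρ = (Z + ν / 2) / ρ - (ν / ρ) / 2 - 1 / ρ := by ring
    rw [e4, f8]
  have e5 : (A - 1) / σ = sz M A - σ / 2 - 1 / σ := by
    have e6 : (A - 1) / σ = (A + (M : ℝ) / 2) / σ - ((M : ℝ) / σ) / 2 - 1 / σ := by ring
    rw [e6, f7]
    unfold sz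
    rw [← hσd]
  rw [e4, e3, e2, e5]
  linarith

theorem stage {M : ℕ} (hM : 100 ≤ M) : ∃ a : ℕ, 0 < a ∧
    TrS M (a ^ 2 * (M + 4)) (7 / √(M : ℝ)) ∧ TrE M (a ^ 2 * (M + 4)) (7 / √(M : ℝ)) := by
  obtain ⟨X⟩ := exists_dat hM
  have h := X.hnfa
  refine ⟨X.a, X.ha, ?_, ?_⟩
  · rw [← h]; exact dat_trS (by omega) X
  · rw [← h]; exact dat_trE (by omega) X

end Pool.Agent.TH183.QC
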