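import Pool.Agent.TH603.Sur.Lim
import Pool.Agent.TH603.Cut.Gsum
import Pool.Agent.TH603.Cut.Key

/-! Abstract systems of emptiness and of independence predicates on sets of exponents, closed under
the moves (the proofs of the moves follow `Pool.Agent.TH176.Nag.Region` and
`Pool.Agent.TH603.Sur.Flat`). -/

namespace Pool.Agent.TH183.QC

open Finset Pool.Agent.TH176.Nag Pool.Agent.TH603.Sur Pool.Agent.TH181.NagM

/-- a system of emptiness predicates -/
structure ES where
  /-- emptiness for the exponents in a set -/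
  E : Set (ℤ × ℤ) → Prop
  none : E ∅
  mono : ∀ {S S' : Set (ℤ × ℤ)}, E S' → S ⊆ S' → E S
  comap : ∀ {S S' : Set (ℤ × ℤ)}, E S' → ∀ a b c d u v : ℤ, a * d - b * c ≠ 0 →
    (∀ m ∈ S, (a * m.1 + b * m.2 + u, c * m.1 + d * m.2 + v) ∈ S') → E S
  flat0 : ∀ {S S' : Set (ℤ × ℤ)}, (∀ (a : ℤ) (B : Finset ℤ), (∀ b ∈ B, ((a, b) : ℤ × ℤ) ∈ S) →
    ∀ k : ℕ, k < B.card → ((a, (k : ℤ)) : ℤ × ℤ) ∈ S') → E S' → E S
  chart : ∀ {N : ℕ}, 3 ≤ N → ∀ t e : ℕ, E (Q3z N (t + 2) e) → E (WPz N e)

/-- a system of independence predicates -/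
structure SS where
  /-- independence for the exponents in a set -/
  R : Set (ℤ × ℤ) → Prop
  mono : ∀ {S S' : Set (ℤ × ℤ)}, R S' → S' ⊆ S → R S
  comap : ∀ {S S' : Set (ℤ × ℤ)}, R S' → ∀ a b c d u v : ℤ, a * d - b * c ≠ 0 →
    (∀ m' ∈ S', ∃ m ∈ S, (a * m.1 + b * m.2 + u, c * m.1 + d * m.2 + v) = m') → R S
  flat0 : ∀ {S S' : Set (ℤ × ℤ)},
    (∀ p ∈ S', 0 ≤ p.2 ∧ ∃ B : Finset ℤ, p.2 < B.card ∧ ∀ b ∈ B, ((p.1, b) : ℤ × ℤ) ∈ S) → R S' → R S
  chart : ∀ {N : ℕ}, 3 ≤ N → ∀ (t : ℕ) (e : ℤ), R (Q3z N (t + 2) e) → R (WPz N e)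

/-- emptiness -/
def EmpA (w : ES) (S : Set (ℤ × ℤ)) : Prop := w.E S

/-- independence -/
def SurA (w : SS) (S : Set (ℤ × ℤ)) : Prop := w.R S

section
variable {w : ES}

theorem EmpA_none {S : Set (ℤ × ℤ)} (hS : ∀ p ∈ S, False) : EmpA w S :=
  w.mono w.none fun p hp => (hS p hp).elim

theorem EmpA.mono {S S' : Set (ℤ × ℤ)} (h : EmpA w S') (hS : S ⊆ S') : EmpA w S := w.mono h hS

theorem EmpA.comap {S S' : Set (ℤ × ℤ)} (h : EmpA w S')
    (a b c d u v : ℤ) (hdet : a * d - b * c ≠ 0)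
    (hS : ∀ m ∈ S, (a * m.1 + b * m.2 + u, c * m.1 + d * m.2 + v) ∈ S') : EmpA w S :=
  w.comap h a b c d u v hdet hS

theorem EmpA_flat0 {S S' : Set (ℤ × ℤ)}
    (hS : ∀ (a : ℤ) (B : Finset ℤ), (∀ b ∈ B, ((a, b) : ℤ × ℤ) ∈ S) →
      ∀ k : ℕ, k < B.card → ((a, (k : ℤ)) : ℤ × ℤ) ∈ S') (h : EmpA w S') : EmpA w S :=
  w.flat0 hS h

theorem EmpA_Q3z {N : ℕ} (hN : 3 ≤ N) (t : ℕ) (e : ℕ)
    (h : EmpA w (Q3z N (t + 2) e)) : EmpA w (WPz N e) := w.chart hN t e h

theorem EmpA_flat {S S' : Set (ℤ × ℤ)} (x y u v : ℤ) (hdet : x * u + y * v = 1)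
    (hS : ∀ (p : ℤ × ℤ) (T : ℤ) (k : ℕ), p ∈ S → (p.1 - y * T, p.2 + x * T) ∈ S → (k : ℤ) ≤ T →
      (x * p.1 + y * p.2, (k : ℤ)) ∈ S') (h : EmpA w S') : EmpA w S := by
  have h1 : EmpA w {m : ℤ × ℤ | (u * m.1 - y * m.2, v * m.1 + x * m.2) ∈ S} := by
    refine EmpA_flat0 ?_ h
    intro a B hB k hk
    have hne : B.Nonempty := card_pos.1 (by omega)
    have hmin := hB _ (B.min'_mem hne)
    have hmax := hB _ (B.max'_mem hne)
    have hcard : B.card ≤ ((B.max' hne) - (B.min' hne) + 1).toNat := by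
      have h2 : B ⊆ Finset.Icc (B.min' hne) (B.max' hne) := by
        intro b hb
        rw [Finset.mem_Icc]
        exact ⟨B.min'_le b hb, B.le_max' b hb⟩
      have h3 := card_le_card h2
      rw [Int.card_Icc] at h3
      have e : (B.max' hne) + 1 - (B.min' hne) = (B.max' hne) - (B.min' hne) + 1 := by ring
      rwa [e] at h3
    have h4 := hS (u * a - y * B.min' hne, v * a + x * B.min' hne) (B.max' hne - B.min' hne) k
      hmin (by
        have e1 : u * a - y * B.min' hne - y * (B.max' hne - B.min' hne) = u * a - y * B.max' hne := by ring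
        have e2 : v * a + x * B.min' hne + x * (B.max' hne - B.min' hne) = v * a + x * B.max' hne := by ring
        simp only [e1, e2]
        exact hmax) (by omega)
    have e3 : x * (u * a - y * B.min' hne) + y * (v * a + x * B.min' hne) = a := by
      linear_combination a * hdet
    simp only [e3] at h4
    exact h4
  refine h1.comap x y (-v) u 0 0 (by rw [show x * u - y * -v = x * u + y * v by ring, hdet]; exact one_ne_zero) ?_
  intro m hm
  show (u * (x * m.1 + y * m.2 + 0) - y * (-v * m.1 + u * m.2 + 0),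
    v * (x * m.1 + y * m.2 + 0) + x * (-v * m.1 + u * m.2 + 0)) ∈ S
  have e1 : u * (x * m.1 + y * m.2 + 0) - y * (-v * m.1 + u * m.2 + 0) = m.1 := by
    linear_combination m.1 * hdet
  have e2 : v * (x * m.1 + y * m.2 + 0) + x * (-v * m.1 + u * m.2 + 0) = m.2 := by
    linear_combination m.2 * hdet
  rw [e1, e2]
  exact hm

theorem EmpA_mirror {α β μ ν : ℝ} (h : EmpA w (Reg (-β) (-α) ν μ)) : EmpA w (Reg α β μ ν) := by
  refine h.comap (-1) 0 0 1 0 0 (by norm_num) ?_
  intro m hm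
  obtain ⟨h1, h2, h3⟩ := hm
  refine ⟨by simpa using h1, ?_, ?_⟩
  · simp only; push_cast; linarith
  · simp only; push_cast; linarith

/-- the top vertex takes the largest value -/
theorem EmpA_regA {α β μ ν : ℝ} (x y u v : ℤ) (hdet : x * u + y * v = 1) (hx : 0 ≤ x)
    (h1 : 0 ≤ x * μ + y) (h2 : x * ν ≤ y) (hn : 0 < μ + ν) {α' β' μ' ν' : ℝ}
    (hα : α' = x * α) (hβ : β' * (μ + ν) = -(y - x * ν) * α + (y + x * μ) * β)
    (hμ : μ' = x * (x * μ + y)) (hν : ν' * (μ + ν) = (y - x * ν) * (y + x * μ))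
    (h : EmpA w (Reg α' β' μ' ν')) : EmpA w (Reg α β μ ν) := by
  refine EmpA_flat x y u v hdet ?_ h
  rintro ⟨a, b⟩ T k ⟨hb, hl, hr⟩ ⟨hb', hl', hr'⟩ hk
  simp only at hb hl hr hb' hl' hr'
  push_cast at hl' hr'
  have hx' : (0 : ℝ) ≤ x := by exact_mod_cast hx
  have hb0 : (0 : ℝ) ≤ b := by exact_mod_cast hb
  have hk' : (k : ℝ) ≤ T := by exact_mod_cast hk
  refine ⟨by simp, ?_, ?_⟩
  · simp only
    push_cast
    rw [hα, hμ]
    have e : (x : ℝ) * a + y * b - (x * α + x * (x * μ + y) * k) =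
        x * ((a - y * T) - (α + μ * (b + x * T))) + (x * μ + y) * b + x * (x * μ + y) * (T - k) := by ring
    have p1 : 0 ≤ (x : ℝ) * ((a - y * T) - (α + μ * (b + x * T))) := mul_nonneg hx' (by linarith)
    have p2 : 0 ≤ ((x : ℝ) * μ + y) * b := mul_nonneg h1 hb0
    have p3 : 0 ≤ (x : ℝ) * (x * μ + y) * (T - k) := mul_nonneg (mul_nonneg hx' h1) (by linarith)
    linarith
  · simp only
    push_cast
    have e : (μ + ν) * (β' - ν' * k - (x * a + y * b)) =
        (y - x * ν) * ((a - y * T) - (α + μ * (b + x * T))) + (y + x * μ) * (β - ν * b - a)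
          + (y - x * ν) * (y + x * μ) * (T - k) := by
      linear_combination hβ - k * hν
    have p1 : 0 ≤ ((y : ℝ) - x * ν) * ((a - y * T) - (α + μ * (b + x * T))) :=
      mul_nonneg (by linarith) (by linarith)
    have p2 : 0 ≤ ((y : ℝ) + x * μ) * (β - ν * b - a) := mul_nonneg (by linarith) (by linarith)
    have p3 : 0 ≤ ((y : ℝ) - x * ν) * (y + x * μ) * (T - k) :=
      mul_nonneg (mul_nonneg (by linarith) (by linarith)) (by linarith)
    have p4 : 0 ≤ (μ + ν) * (β' - ν' * k - (x * a + y * b)) := by rw [e]; linarith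
    have p5 := nonneg_of_mul_nonneg_right p4 hn
    linarith

/-- the top vertex takes the middle value -/
theorem EmpA_regC {α β μ ν : ℝ} (x y u v : ℤ) (hdet : x * u + y * v = 1) (hx : 0 ≤ x)
    (h1 : 0 ≤ x * μ + y) (h2 : (y : ℝ) ≤ x * ν) {α' β' μ' ν' : ℝ}
    (hα : α' = x * α) (hβ : β' = x * β)
    (hμ : μ' = x * (x * μ + y)) (hν : ν' = x * (x * ν - y))
    (h : EmpA w (Reg α' β' μ' ν')) : EmpA w (Reg α β μ ν) := by
  refine EmpA_flat x y u v hdet ?_ h
  rintro ⟨a, b⟩ T k ⟨hb, hl, hr⟩ ⟨hb', hl', hr'⟩ hk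
  simp only at hb hl hr hb' hl' hr'
  push_cast at hl' hr'
  have hx' : (0 : ℝ) ≤ x := by exact_mod_cast hx
  have hb0 : (0 : ℝ) ≤ b := by exact_mod_cast hb
  have hk' : (k : ℝ) ≤ T := by exact_mod_cast hk
  refine ⟨by simp, ?_, ?_⟩
  · simp only
    push_cast
    rw [hα, hμ]
    have e : (x : ℝ) * a + y * b - (x * α + x * (x * μ + y) * k) =
        x * ((a - y * T) - (α + μ * (b + x * T))) + (x * μ + y) * b + x * (x * μ + y) * (T - k) := by ring
    have p1 : 0 ≤ (x : ℝ) * ((a - y * T) - (α + μ * (b + x * T))) := mul_nonneg hx' (by linarith)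
    have p2 : 0 ≤ ((x : ℝ) * μ + y) * b := mul_nonneg h1 hb0
    have p3 : 0 ≤ (x : ℝ) * (x * μ + y) * (T - k) := mul_nonneg (mul_nonneg hx' h1) (by linarith)
    linarith
  · simp only
    push_cast
    rw [hβ, hν]
    have e : (x : ℝ) * β - x * (x * ν - y) * k - (x * a + y * b) =
        x * (β - ν * (b + x * T) - (a - y * T)) + (x * ν - y) * b + x * (x * ν - y) * (T - k) := by ring
    have p1 : 0 ≤ (x : ℝ) * (β - ν * (b + x * T) - (a - y * T)) := mul_nonneg hx' (by linarith)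
    have p2 : 0 ≤ ((x : ℝ) * ν - y) * b := mul_nonneg (by linarith) hb0
    have p3 : 0 ≤ (x : ℝ) * (x * ν - y) * (T - k) := mul_nonneg (mul_nonneg hx' (by linarith)) (by linarith)
    linarith

end

section
variable {w : SS}

theorem SurA.mono {S S' : Set (ℤ × ℤ)} (h : SurA w S') (hS : S' ⊆ S) : SurA w S := w.mono h hS

theorem SurA.comap {S S' : Set (ℤ × ℤ)} (h : SurA w S') (a b c d u v : ℤ) (hdet : a * d - b * c ≠ 0)
    (hS : ∀ m' ∈ S', ∃ m ∈ S, (a * m.1 + b * m.2 + u, c * m.1 + d * m.2 + v) = m') : SurA w S :=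
  w.comap h a b c d u v hdet hS

theorem SurA_flat0 {S S' : Set (ℤ × ℤ)}
    (hS : ∀ p ∈ S', 0 ≤ p.2 ∧ ∃ B : Finset ℤ, p.2 < B.card ∧ ∀ b ∈ B, ((p.1, b) : ℤ × ℤ) ∈ S)
    (h : SurA w S') : SurA w S := w.flat0 hS h

theorem SurA_WPz {N : ℕ} (hN : 3 ≤ N) (t : ℕ) (E : ℤ) (h : SurA w (Q3z N (t + 2) E)) :
    SurA w (WPz N E) := w.chart hN t E h

/-- translations -/
theorem SurA.shift {S S' : Set (ℤ × ℤ)} (h : SurA w S') (u v : ℤ)
    (hS : ∀ m' ∈ S', (m'.1 - u, m'.2 - v) ∈ S) : SurA w S := by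
  refine h.comap 1 0 0 1 u v (by norm_num) fun m' hm' => ⟨_, hS m' hm', ?_⟩
  ext <;> simp

/-- the flattening lemma for a general primitive covector `(x, y)`: the fibres contain long
intervals -/
theorem SurA_flat {S S' : Set (ℤ × ℤ)} (x y u v : ℤ) (hdet : x * u + y * v = 1)
    (hS : ∀ p ∈ S', 0 ≤ p.2 ∧ ∃ s0 : ℤ, ∀ s : ℤ, s0 ≤ s → s ≤ s0 + p.2 →
      (u * p.1 - y * s, v * p.1 + x * s) ∈ S) (h : SurA w S') : SurA w S := by
  classical
  have h1 : SurA w {m : ℤ × ℤ | (u * m.1 - y * m.2, v * m.1 + x * m.2) ∈ S} := by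
    refine SurA_flat0 ?_ h
    intro p hp
    obtain ⟨h5, s0, h6⟩ := hS p hp
    refine ⟨h5, Finset.Icc s0 (s0 + p.2), ?_, ?_⟩
    · rw [Int.card_Icc]
      omega
    · intro b hb
      rw [Finset.mem_Icc] at hb
      exact h6 b hb.1 hb.2
  refine h1.comap x y (-v) u 0 0 (by rw [show x * u - y * -v = x * u + y * v by ring, hdet]; exact one_ne_zero) ?_
  intro m' hm'
  refine ⟨(u * m'.1 - y * m'.2, v * m'.1 + x * m'.2), hm', ?_⟩
  ext
  · simp only; linear_combination m'.1 * hdet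
  · simp only; linear_combination m'.2 * hdet

theorem SurA_mirror {α β μ ν : ℝ} (h : SurA w (RegO (-β) (-α) ν μ)) : SurA w (RegO α β μ ν) := by
  refine h.comap (-1) 0 0 1 0 0 (by norm_num) ?_
  rintro ⟨a, b⟩ ⟨h1, h2, h3⟩
  simp only at h1 h2 h3
  refine ⟨(-a, b), ⟨h1, ?_, ?_⟩, ?_⟩
  · simp only; push_cast; linarith
  · simp only; push_cast; linarith
  · ext <;> simp

theorem SurA_shear {α β μ ν : ℝ} (k : ℤ) (h : SurA w (RegO α β (μ + k) (ν - k))) :
    SurA w (RegO α β μ ν) := by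
  refine h.comap 1 k 0 1 0 0 (by norm_num) ?_
  rintro ⟨a, b⟩ ⟨h1, h2, h3⟩
  simp only at h1 h2 h3
  refine ⟨(a - k * b, b), ⟨h1, ?_, ?_⟩, ?_⟩
  · simp only; push_cast; linarith
  · simp only; push_cast; linarith
  · ext <;> simp

/-- the top vertex takes the largest value -/
theorem SurA_regA {α β μ ν : ℝ} (x y u v : ℤ) (hdet : x * u + y * v = 1) (hx : 0 ≤ x)
    (h1 : 0 ≤ x * μ + y) (h2 : x * ν ≤ y) (hn : 0 < μ + ν) {α' β' μ' ν' : ℝ}
    (hα : α' = x * α) (hβ : β' * (μ + ν) = -(y - x * ν) * α + (y + x * μ) * β)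
    (hμ : μ' = x * (x * μ + y)) (hν : ν' * (μ + ν) = (y - x * ν) * (y + x * μ))
    (h : SurA w (RegO α' β' μ' ν')) : SurA w (RegO α β μ ν) := by
  have hx' : (0 : ℝ) ≤ x := by exact_mod_cast hx
  have hdR : (x : ℝ) * u + y * v = 1 := by exact_mod_cast hdet
  -- shift the region down by one
  have hsh : SurA w {p : ℤ × ℤ | 0 ≤ p.2 ∧ (p.1, p.2 + 1) ∈ RegO α' β' μ' ν'} := by
    refine h.shift 0 1 ?_
    rintro ⟨a, b⟩ hab
    have h3 := hab.1
    simp only at h3
    refine ⟨by simp only; omega, ?_⟩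
    simpa using hab
  refine SurA_flat x y u v hdet ?_ hsh
  rintro ⟨c, k⟩ ⟨hk, h3, h4, h5⟩
  simp only at hk h3 h4 h5
  refine ⟨hk, ?_⟩
  simp only
  push_cast at h4 h5
  have hk' : (0 : ℝ) ≤ k := by exact_mod_cast hk
  -- the two lower conditions
  let P : ℤ → Prop := fun s => 0 < (v : ℝ) * c + x * s ∧ 0 < β - ν * (v * c + x * s) - (u * c - y * s)
  have hyx : (0 : ℝ) ≤ y - x * ν := by linarith
  have hPmono : ∀ s s' : ℤ, s ≤ s' → P s → P s' := by
    rintro s s' hs ⟨g1, g2⟩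
    have hs' : (s : ℝ) ≤ s' := by exact_mod_cast hs
    have q1 : 0 ≤ (x : ℝ) * (s' - s) := mul_nonneg hx' (by linarith)
    have q2 : 0 ≤ ((y : ℝ) - x * ν) * (s' - s) := mul_nonneg hyx (by linarith)
    exact ⟨by linarith, by linarith⟩
  have hxy0 : 0 < (x : ℝ) ∨ 0 < (y : ℝ) - x * ν := by
    rcases hx'.lt_or_eq with hx0 | hx0
    · exact Or.inl hx0
    · right
      have hx1 : x = 0 := by exact_mod_cast hx0.symm
      subst hx1
      have hy0 : (y : ℝ) ≠ 0 := by
        intro hy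
        rw [hy] at hdR
        simp at hdR
      have : (0 : ℝ) ≤ y := by simpa using hyx
      simp only [Int.cast_zero, zero_mul, sub_zero]
      exact lt_of_le_of_ne this hy0.symm
  -- failure of one of the conditions at `s` gives the upper bound for `s + k + 1`
  have hU : ∀ s : ℤ, ¬ P s → 0 < u * c - α - μ * (v * c) - (x * μ + y) * (s + (k + 1)) := by
    intro s hs
    have hs' : (v : ℝ) * c + x * s ≤ 0 ∨ β - ν * (v * c + x * s) - (u * c - y * s) ≤ 0 := by
      by_contra hcon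
      push Not at hcon
      exact hs hcon
    rcases hs' with hs' | hs'
    · have hx0 : 0 < (x : ℝ) := by
        rcases hx'.lt_or_eq with hx0 | hx0
        · exact hx0
        · exfalso
          rw [← hx0] at hs' hdR hα hμ
          have e1 : (y : ℝ) * v = 1 := by linarith
          have hx1 : x = 0 := by exact_mod_cast hx0.symm
          subst hx1
          have hy0 : 0 ≤ (y : ℝ) := by simpa using hyx
          have hy1 : 0 ≤ y := by exact_mod_cast hy0
          have e2 : y * v = 1 := by exact_mod_cast e1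
          have e3 : y = 1 := Int.eq_one_of_mul_eq_one_right hy1 e2
          have e4 : v = 1 := by rw [e3] at e2; omega
          rw [e4] at hs'
          rw [hα, hμ] at h4
          simp at hs' h4
          linarith
      have e : x * (u * c - α - μ * (v * c) - (x * μ + y) * (s + (k + 1))) =
          (c - (x * α + x * (x * μ + y) * (k + 1))) - (x * μ + y) * (v * c + x * s) := by
        linear_combination (-(c : ℝ)) * hdR + 2 * (c : ℝ) * hdR - (c : ℝ) * hdR + (c : ℝ) * hdR
      have p1 : (x * μ + y) * (v * c + x * s) ≤ 0 := mul_nonpos_of_nonneg_of_nonpos h1 hs'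
      have p2 : 0 < (c : ℝ) - (x * α + x * (x * μ + y) * (k + 1)) := by
        rw [← hα, ← hμ]; linarith
      have p3 : 0 < (x : ℝ) * (u * c - α - μ * (v * c) - (x * μ + y) * (s + (k + 1))) := by
        rw [e]; linarith
      exact ppos p3 hx'
    · have hy0 : 0 < (y : ℝ) - x * ν := by
        rcases hyx.lt_or_eq with hy0 | hy0
        · exact hy0
        · exfalso
          have hx0 : 0 < (x : ℝ) := by
            rcases hxy0 with h | h
            · exact h
            · linarith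
          have e1 : (y : ℝ) = x * ν := by linarith
          -- then the second condition does not depend on `s`
          have e2 : x * (β - ν * (v * c + x * s) - (u * c - y * s)) = x * β - c := by
            have : (x : ℝ) * (u + ν * v) = 1 := by rw [← hdR, e1]; ring
            linear_combination (-(c : ℝ)) * this + x * s * e1
          have e3 : β' = x * β := by
            have : β' * (μ + ν) = x * β * (μ + ν) := by
              rw [hβ, e1]; ring
            exact mul_right_cancel₀ hn.ne' this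
          have e4 : ν' = 0 := by
            have : ν' * (μ + ν) = 0 * (μ + ν) := by rw [hν, e1]; ring
            exact mul_right_cancel₀ hn.ne' this
          rw [e3, e4] at h5
          have e5 : 0 < x * (β - ν * (v * c + x * s) - (u * c - y * s)) := by rw [e2]; linarith
          have e6 := ppos e5 hx'
          linarith
      have e : (y - x * ν) * (u * c - α - μ * (v * c) - (x * μ + y) * (s + (k + 1))) =
          (μ + ν) * (β' - ν' * (k + 1) - c) -
            (x * μ + y) * (β - ν * (v * c + x * s) - (u * c - y * s)) := by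
        linear_combination (-1) * hβ + (k + 1) * hν - (c : ℝ) * (μ + ν) * hdR
      have p1 : (x * μ + y) * (β - ν * (v * c + x * s) - (u * c - y * s)) ≤ 0 :=
        mul_nonpos_of_nonneg_of_nonpos h1 hs'
      have p2 : 0 < (μ + ν) * (β' - ν' * (k + 1) - c) := mul_pos hn (by linarith)
      have p3 : 0 < (y - x * ν) * (u * c - α - μ * (v * c) - (x * μ + y) * (s + (k + 1))) := by
        rw [e]; linarith
      exact ppos p3 hyx
  -- the least `s` with both conditions
  obtain ⟨s0, hs0, hs1⟩ : ∃ s0 : ℤ, P s0 ∧ ¬ P (s0 - 1) := by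
    have hbdd : ∃ b : ℤ, ∀ z : ℤ, P z → b ≤ z := by
      rcases hxy0 with hx0 | hy0
      · refine ⟨⌊-(v * c : ℝ) / x⌋, fun z hz => ?_⟩
        have : -(v * c : ℝ) / x < z := by
          rw [div_lt_iff₀ hx0]
          have := hz.1
          linarith
        exact_mod_cast (Int.floor_le _).trans this.le
      · refine ⟨⌊((u + ν * v) * c - β : ℝ) / (y - x * ν)⌋, fun z hz => ?_⟩
        have : ((u + ν * v) * c - β : ℝ) / (y - x * ν) < z := by
          rw [div_lt_iff₀ hy0]
          have := hz.2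
          linarith
        exact_mod_cast (Int.floor_le _).trans this.le
    have hinh : ∃ z : ℤ, P z := by
      by_contra hcon
      push Not at hcon
      -- if no `s` satisfies `P`, the upper condition holds for all `s`, a contradiction
      have hxy1 : 0 < x * μ + y := by
        rcases h1.lt_or_eq with h | h
        · exact h
        · exfalso
          have e1 : (y : ℝ) = -(x * μ) := by linarith
          have e2 : 0 ≤ -(x : ℝ) * (μ + ν) := by
            have : (y : ℝ) - x * ν = -(x : ℝ) * (μ + ν) := by rw [e1]; ring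
            rw [← this]; exact hyx
          have e3 : (x : ℝ) * (μ + ν) ≤ 0 := by linarith
          have e4 : (x : ℝ) ≤ 0 := nonpos_of_mul_nonpos_left e3 hn
          have e5 : (x : ℝ) = 0 := le_antisymm e4 hx'
          rw [e5] at e1 hdR
          rw [e1] at hdR
          simp at hdR
      obtain ⟨s, hs⟩ := exists_int_gt ((u * c - α - μ * (v * c)) / (x * μ + y))
      rw [div_lt_iff₀ hxy1] at hs
      have h6 := hU s (hcon s)
      have h7 : 0 ≤ (x * μ + y) * (k + 1) := mul_nonneg h1 (by linarith)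
      linarith
    obtain ⟨s0, hs0, hmin⟩ := Int.exists_least_of_bdd hbdd hinh
    exact ⟨s0, hs0, fun h => by have := hmin _ h; omega⟩
  have h6 := hU _ hs1
  refine ⟨s0, fun s hs hs' => ?_⟩
  obtain ⟨g1, g2⟩ := hPmono s0 s hs hs0
  have hsR : (s : ℝ) ≤ s0 + k := by exact_mod_cast hs'
  refine ⟨?_, ?_, ?_⟩
  · simp only
    exact_mod_cast g1
  · simp only
    push_cast at h6 ⊢
    have q1 : 0 ≤ (x * μ + y) * (s0 + k - s) := mul_nonneg h1 (by linarith)
    linarith
  · simp only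
    push_cast
    linarith

/-- the top vertex takes the middle value -/
theorem SurA_regC {α β μ ν : ℝ} (x y u v : ℤ) (hdet : x * u + y * v = 1) (hx : 0 ≤ x)
    (h1 : 0 ≤ x * μ + y) (h2 : (y : ℝ) ≤ x * ν) {α' β' μ' ν' : ℝ}
    (hα : α' = x * α) (hβ : β' = x * β)
    (hμ : μ' = x * (x * μ + y)) (hν : ν' = x * (x * ν - y))
    (h : SurA w (RegO α' β' μ' ν')) : SurA w (RegO α β μ ν) := by
  have hx' : (0 : ℝ) ≤ x := by exact_mod_cast hx
  have hdR : (x : ℝ) * u + y * v = 1 := by exact_mod_cast hdet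
  have hx0 : 0 < (x : ℝ) := by
    rcases hx'.lt_or_eq with hx0 | hx0
    · exact hx0
    · exfalso
      rw [← hx0] at h1 h2 hdR
      have : (y : ℝ) = 0 := by
        apply le_antisymm
        · simpa using h2
        · simpa using h1
      rw [this] at hdR
      simp at hdR
  have hsh : SurA w {p : ℤ × ℤ | 0 ≤ p.2 ∧ (p.1, p.2 + 1) ∈ RegO α' β' μ' ν'} := by
    refine h.shift 0 1 ?_
    rintro ⟨a, b⟩ hab
    have h3 := hab.1
    simp only at h3
    refine ⟨by simp only; omega, ?_⟩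
    simpa using hab
  refine SurA_flat x y u v hdet ?_ hsh
  rintro ⟨c, k⟩ ⟨hk, h3, h4, h5⟩
  simp only at hk h3 h4 h5
  refine ⟨hk, ?_⟩
  simp only
  push_cast at h4 h5
  have hk' : (0 : ℝ) ≤ k := by exact_mod_cast hk
  obtain ⟨s0, hs0, hs1⟩ : ∃ s0 : ℤ, 0 < (v : ℝ) * c + x * s0 ∧ (v : ℝ) * c + x * (s0 - 1) ≤ 0 := by
    refine ⟨⌊-(v * c : ℝ) / x⌋ + 1, ?_, ?_⟩
    · have := Int.lt_floor_add_one (-(v * c : ℝ) / x)
      rw [div_lt_iff₀ hx0] at this
      push_cast
      linarith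
    · have := Int.floor_le (-(v * c : ℝ) / x)
      rw [le_div_iff₀ hx0] at this
      push_cast
      linarith
  have hyx : (0 : ℝ) ≤ x * ν - y := by linarith
  refine ⟨s0, fun s hs hs' => ?_⟩
  have hsR : (s : ℝ) ≤ s0 + k := by exact_mod_cast hs'
  have hsR' : (s0 : ℝ) ≤ s := by exact_mod_cast hs
  have g1 : 0 < (v : ℝ) * c + x * s := by
    have : 0 ≤ (x : ℝ) * (s - s0) := mul_nonneg hx' (by linarith)
    linarith
  refine ⟨?_, ?_, ?_⟩
  · simp only
    exact_mod_cast g1
  · simp only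
    push_cast
    have e : x * ((u * c - y * s) - (α + μ * (v * c + x * s))) =
        (c - (x * α + x * (x * μ + y) * (k + 1))) - (x * μ + y) * (v * c + x * (s0 - 1)) +
          x * ((x * μ + y) * (s0 + k - s)) := by
      linear_combination (c : ℝ) * hdR
    have p1 : (x * μ + y) * (v * c + x * (s0 - 1)) ≤ 0 := mul_nonpos_of_nonneg_of_nonpos h1 hs1
    have p2 : 0 < (c : ℝ) - (x * α + x * (x * μ + y) * (k + 1)) := by
      rw [← hα, ← hμ]; linarith
    have p3 : 0 ≤ x * ((x * μ + y) * (s0 + k - s)) :=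
      mul_nonneg hx' (mul_nonneg h1 (by linarith))
    have p4 : 0 < x * ((u * c - y * s) - (α + μ * (v * c + x * s))) := by rw [e]; linarith
    have := ppos p4 hx'
    linarith
  · simp only
    push_cast
    have e : x * ((β - ν * (v * c + x * s)) - (u * c - y * s)) =
        (x * β - x * (x * ν - y) * (k + 1) - c) - (x * ν - y) * (v * c + x * (s0 - 1)) +
          x * ((x * ν - y) * (s0 + k - s)) := by
      linear_combination (-(c : ℝ)) * hdR
    have p1 : (x * ν - y) * (v * c + x * (s0 - 1)) ≤ 0 := mul_nonpos_of_nonneg_of_nonpos hyx hs1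
    have p2 : 0 < x * β - x * (x * ν - y) * (k + 1) - c := by
      rw [← hβ, ← hν]; linarith
    have p3 : 0 ≤ x * ((x * ν - y) * (s0 + k - s)) :=
      mul_nonneg hx' (mul_nonneg hyx (by linarith))
    have p4 : 0 < x * ((β - ν * (v * c + x * s)) - (u * c - y * s)) := by rw [e]; linarith
    have := ppos p4 hx'
    linarith

end

end Pool.Agent.TH183.QC
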